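import Pool.Agent.Y704.NE.P2

/-!
Job S_PERT2 of the project NS/E: group norms; the estimates in terms of the main modes and the
norms of the other modes.
-/

open Set Filter Topology

set_option autoImplicit false
set_option linter.all false

namespace Pool.Agent.Y704.NE

open Pool.Agent.Y5.D Pool.Agent.Y5.E

variable {J : Type} {g : J → ℕ} {lam Λ M : ℝ} {L C ℓ : ℕ → ℝ} {B : ℕ → ℕ → ℝ}
  {c : Ix J → Ix J → Ix J → ℝ}

/-! ### Group norms -/

/-- norm of the other modes of a group -/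
noncomputable def ww (g : J → ℕ) (z : Ix J → ℝ) (n : ℕ) : ℝ := nm (Pg g n (Po z))

/-- bound of the norm of a group -/
noncomputable def ee (g : J → ℕ) (z : Ix J → ℝ) (n : ℕ) : ℝ := |z (Sum.inl n)| + ww g z n

theorem ww_nn (z : Ix J → ℝ) (n : ℕ) : 0 ≤ ww g z n := nm_nn _
theorem ee_nn (z : Ix J → ℝ) (n : ℕ) : 0 ≤ ee g z n := add_nonneg (abs_nonneg _) (ww_nn _ _)

theorem nm_pm_sq (z : Ix J → ℝ) (n : ℕ) : nm (Pg g n (Pm z)) ^ 2 = z (Sum.inl n) ^ 2 := by
  rw [nm_sq, tsum_eq_single (Sum.inl n)]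
  · simp [Pg, Pm, gr]
  · rintro (m | j) h
    · have : m ≠ n := fun h' => h (by rw [h'])
      simp [Pg, gr, this]
    · simp [Pg, Pm]

theorem nm_pm (z : Ix J → ℝ) (n : ℕ) : nm (Pg g n (Pm z)) = |z (Sum.inl n)| := by
  rw [← Real.sqrt_sq (nm_nn (Pg g n (Pm z))), nm_pm_sq, Real.sqrt_sq_eq_abs]

theorem ww_sq (z : Ix J → ℝ) (n : ℕ) :
    ww g z n ^ 2 = ∑' j : J, if g j = n then z (Sum.inr j) ^ 2 else 0 := by
  unfold ww
  rw [nm_sq, ← Function.Injective.tsum_eq (Sum.inr_injective (α := ℕ) (β := J))]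
  · refine tsum_congr fun j => ?_
    show (if g j = n then z (Sum.inr j) else 0) ^ 2 = _
    split_ifs <;> norm_num
  · intro a ha
    cases a with
    | inl m =>
      exfalso
      apply ha
      simp [Pg, Po]
    | inr j => exact ⟨j, rfl⟩

theorem grp_sq (hs : Sq lam Λ M L C ℓ B) {z : Ix J → ℝ} (hz : Nice g L z) (n : ℕ) :
    nm (Pg g n z) ^ 2 = z (Sum.inl n) ^ 2 + ww g z n ^ 2 := by
  rw [← nm_pm_sq (g := g)]
  unfold ww
  rw [nm_sq, nm_sq, nm_sq, ← ((hz.pm hs).pg hs n |>.sq hs).tsum_add ((hz.po hs).pg hs n |>.sq hs)]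
  refine tsum_congr fun a => ?_
  cases a <;> simp [Pg, Pm, Po]

theorem grp_le (hs : Sq lam Λ M L C ℓ B) {z : Ix J → ℝ} (hz : Nice g L z) (n : ℕ) :
    nm (Pg g n z) ≤ ee g z n := by
  refine le_of_sq_le_sq ?_ (ee_nn _ _)
  rw [grp_sq hs hz]
  unfold ee
  have h1 := mul_nonneg (abs_nonneg (z (Sum.inl n))) (ww_nn (g := g) z n)
  nlinarith [sq_abs (z (Sum.inl n))]

theorem fib (hs : Sq lam Λ M L C ℓ B) {z : Ix J → ℝ} (hz : Nice g L z) :
    HasSum (fun k => nm (Pg g k z) ^ 2) (nm z ^ 2) := by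
  have h := (hz.sq hs).hasSum.tsum_fiberwise (gr g)
  rw [← nm_sq] at h
  refine h.congr_fun ?_
  intro k
  rw [nm_sq, tsum_subtype (gr g ⁻¹' {k}) (fun a => z a ^ 2)]
  refine tsum_congr fun a => ?_
  by_cases ha : gr g a = k
  · rw [indicator_of_mem (by simpa using ha)]
    unfold Pg; rw [if_pos ha]
  · rw [indicator_of_notMem (by simpa using ha)]
    unfold Pg; rw [if_neg ha]; norm_num

theorem fib_up (hs : Sq lam Λ M L C ℓ B) {z : Ix J → ℝ} (hz : Nice g L z) (m : ℕ) :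
    HasSum (fun k => nm (Pg g (m + k) z) ^ 2) (nm (Pu g m z) ^ 2) := by
  have h := fib hs (hz.pu hs m)
  have h1 := (add_right_injective m).hasSum_iff (f := fun k => nm (Pg g k (Pu g m z)) ^ 2)
    (a := nm (Pu g m z) ^ 2) ?_
  · rw [← h1] at h
    refine h.congr_fun ?_
    intro k
    show nm (Pg g (m + k) z) ^ 2 = nm (Pg g (m + k) (Pu g m z)) ^ 2
    congr 2
    funext a
    unfold Pg Pu
    by_cases ha : gr g a = m + k
    · rw [if_pos ha, if_pos ha, if_pos (by omega)]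
    · rw [if_neg ha, if_neg ha]
  · intro k hk
    have hk' : k < m := by
      by_contra h2
      exact hk ⟨k - m, by show m + (k - m) = k; omega⟩
    show nm (Pg g k (Pu g m z)) ^ 2 = 0
    rw [nm_sq]
    have e : ∀ a, Pg g k (Pu g m z) a ^ 2 = 0 := by
      intro a
      unfold Pg Pu
      by_cases ha : gr g a = k
      · rw [if_pos ha, if_neg (by omega)]; norm_num
      · rw [if_neg ha]; norm_num
    rw [tsum_congr e, tsum_zero]

/-- the tail energy -/
theorem Y_eq (hs : Sq lam Λ M L C ℓ B) {z : Ix J → ℝ} (hz : Nice g L z) (m : ℕ) :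
    ∑' k, (z (Sum.inl (m + k)) ^ 2 + ww g z (m + k) ^ 2) = nm (Pu g m z) ^ 2 := by
  rw [← (fib_up hs hz m).tsum_eq]
  exact tsum_congr fun k => (grp_sq hs hz _).symm

theorem W_eq (hs : Sq lam Λ M L C ℓ B) {z : Ix J → ℝ} (hz : Nice g L z) (m : ℕ) :
    ∑' k, ww g z (m + k) ^ 2 = nm (Pu g m (Po z)) ^ 2 := by
  rw [← (fib_up hs (hz.po hs) m).tsum_eq]
  rfl

theorem W_le_Y (hs : Sq lam Λ M L C ℓ B) {z : Ix J → ℝ} (hz : Nice g L z) (m : ℕ) :
    nm (Pu g m (Po z)) ≤ nm (Pu g m z) := by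
  refine nm_mono hs (hz.pu hs m) fun a => ?_
  unfold Pu
  split_ifs
  exacts [Po_le z a, le_rfl]

theorem X_le_Y (hs : Sq lam Λ M L C ℓ B) {z : Ix J → ℝ} (hz : Nice g L z) (m : ℕ) :
    nm (Pu g m (Pm z)) ≤ nm (Pu g m z) := by
  refine nm_mono hs (hz.pu hs m) fun a => ?_
  unfold Pu
  split_ifs
  exacts [Pm_le z a, le_rfl]

theorem Y_mono (hs : Sq lam Λ M L C ℓ B) {z : Ix J → ℝ} (hz : Nice g L z) {m n : ℕ} (h : m ≤ n) :
    nm (Pu g n z) ≤ nm (Pu g m z) := by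
  refine nm_mono hs (hz.pu hs m) fun a => ?_
  unfold Pu
  by_cases h1 : n ≤ gr g a
  · rw [if_pos h1, if_pos (by omega)]
  · rw [if_neg h1, abs_zero]; exact abs_nonneg _

/-! ### Auxiliary estimates -/

theorem pg_pl_le (hs : Sq lam Λ M L C ℓ B) {z : Ix J → ℝ} (hz : Nice g L z) (p m : ℕ) :
    nm (Pg g p (Pl g m z)) ≤ nm (Pg g p z) := by
  refine nm_mono hs (hz.pg hs p) fun a => ?_
  unfold Pg
  split_ifs
  exacts [Pl_le m z a, le_rfl]

theorem pg_pu_le (hs : Sq lam Λ M L C ℓ B) {z : Ix J → ℝ} (hz : Nice g L z) (p m : ℕ) :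
    nm (Pg g p (Pu g m z)) ≤ nm (Pu g m z) := nm_mono hs (hz.pu hs m) (Pg_le p _)

theorem Pl_in (m : ℕ) (z : Ix J → ℝ) : InLow g m (Pl g m z) := fun i hi => if_neg (by omega)
theorem Pu_in (m : ℕ) (z : Ix J → ℝ) : InUp g m (Pu g m z) := fun i hi => if_neg (by omega)

/-- low advecting, high advected -/
theorem EB (hK : Ker g Λ M L C B c) (hs : Sq lam Λ M L C ℓ B) {α β γ : Ix J → ℝ}
    (hα : Nice g L α) (hβ : Nice g L β) (hγ : Nice g L γ) {n : ℕ} (h1 : InG g n α)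
    {b : ℕ → ℝ} (hb : ∀ p, nm (Pg g p β) ≤ b p) :
    |tl c α (Pl g n β) (Pu g n γ)| ≤
      2 * (M * (nm α * (L n * ∑ p ∈ Finset.range n, (√lam)⁻¹ ^ (n - 1 - p) * b p)
        * nm (Pu g n γ))) := by
  have hb0 : ∀ p, 0 ≤ b p := fun p => (nm_nn _).trans (hb p)
  rw [up_split hK hs hα (hβ.pl hs n) (hγ.pu hs n) h1 (Pl_in n β) (Pu_in n γ)]
  refine (abs_add_le _ _).trans ?_
  have key : ∀ q, n ≤ q → |tl c α (Pl g n β) (Pg g q (Pu g n γ))| ≤
      M * (nm α * (L n * ∑ p ∈ Finset.range n, (√lam)⁻¹ ^ (n - 1 - p) * b p)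
        * nm (Pu g n γ)) := by
    intro q hq
    refine (EB1 hK hs hα (hβ.pl hs n) ((hγ.pu hs n).pg hs q) hq h1 (Pl_in n β) (Pg_in q _)
      (b := b) (fun p => (pg_pl_le hs hβ p n).trans (hb p))).trans ?_
    have h2 := pg_pu_le hs hγ q n
    have h3 := M_nn hs
    have h4 := nm_nn α
    have h5 := L_nn hs n
    have h6 : 0 ≤ ∑ p ∈ Finset.range n, (√lam)⁻¹ ^ (n - 1 - p) * b p :=
      Finset.sum_nonneg fun p _ => mul_nonneg (pow_nonneg ρ_nn _) (hb0 p)
    gcongr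
  have h1 := key n le_rfl
  have h2 := key (n + 1) (by omega)
  linarith

/-- high advecting, low advected -/
theorem EC (hK : Ker g Λ M L C B c) (hs : Sq lam Λ M L C ℓ B) {α β γ : Ix J → ℝ}
    (hα : Nice g L α) (hβ : Nice g L β) (hγ : Nice g L γ) {n : ℕ} (h1 : InG g n α)
    {b : ℕ → ℝ} (hb : ∀ p, nm (Pg g p γ) ≤ b p) :
    |tl c α (Pu g n β) (Pl g n γ)| ≤
      2 * (M * (nm α * nm (Pu g n β) * ∑ q ∈ Finset.range n, L q * b q)) := by
  have hb0 : ∀ p, 0 ≤ b p := fun p => (nm_nn _).trans (hb p)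
  rw [up_split' hK hs hα (hβ.pu hs n) (hγ.pl hs n) h1 (Pl_in n γ) (Pu_in n β)]
  refine (abs_add_le _ _).trans ?_
  have key : ∀ q, n ≤ q → |tl c α (Pg g q (Pu g n β)) (Pl g n γ)| ≤
      M * (nm α * nm (Pu g n β) * ∑ q ∈ Finset.range n, L q * b q) := by
    intro q hq
    refine (EC1 hK hs hα ((hβ.pu hs n).pg hs q) (hγ.pl hs n) hq h1 (Pl_in n γ) (Pg_in q _)
      (b := b) (fun p => (pg_pl_le hs hγ p n).trans (hb p))).trans ?_
    have h2 := pg_pu_le hs hβ q n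
    have h3 := M_nn hs
    have h4 := nm_nn α
    have h6 : 0 ≤ ∑ q ∈ Finset.range n, L q * b q :=
      Finset.sum_nonneg fun p _ => mul_nonneg (L_nn hs _) (hb0 p)
    gcongr
  have h1 := key n le_rfl
  have h2 := key (n + 1) (by omega)
  linarith

theorem tl_split2 (hK : Ker g Λ M L C B c) (hs : Sq lam Λ M L C ℓ B) {α β γ : Ix J → ℝ}
    (hα : Nice g L α) (hβ : Nice g L β) (hγ : Nice g L γ) (n : ℕ) :
    tl c α β γ = tl c α (Pl g n β) γ + tl c α (Pu g n β) γ := by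
  rw [← tl_add2 hK hs hα (hβ.pl hs n) (hβ.pu hs n) hγ]
  exact tl_congr fun i a b _ => by rw [pl_pu (g := g) n β a]

theorem tl_split3 (hK : Ker g Λ M L C B c) (hs : Sq lam Λ M L C ℓ B) {α β γ : Ix J → ℝ}
    (hα : Nice g L α) (hβ : Nice g L β) (hγ : Nice g L γ) (n : ℕ) :
    tl c α β γ = tl c α β (Pl g n γ) + tl c α β (Pu g n γ) := by
  rw [← tl_add3 hK hs hα hβ (hγ.pl hs n) (hγ.pu hs n)]
  exact tl_congr fun i a b _ => by rw [pl_pu (g := g) n γ b]

theorem tl_four (hK : Ker g Λ M L C B c) (hs : Sq lam Λ M L C ℓ B) {α β γ : Ix J → ℝ}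
    (hα : Nice g L α) (hβ : Nice g L β) (hγ : Nice g L γ) (n : ℕ) :
    tl c α β γ = tl c α (Pl g n β) (Pl g n γ) + tl c α (Pl g n β) (Pu g n γ) +
      tl c α (Pu g n β) (Pl g n γ) + tl c α (Pu g n β) (Pu g n γ) := by
  rw [tl_split2 hK hs hα hβ hγ n, tl_split3 hK hs hα (hβ.pl hs n) hγ n,
    tl_split3 hK hs hα (hβ.pu hs n) hγ n]
  ring

theorem tl_mo1 (hK : Ker g Λ M L C B c) (hs : Sq lam Λ M L C ℓ B) {α β γ : Ix J → ℝ}
    (hα : Nice g L α) (hβ : Nice g L β) (hγ : Nice g L γ) (f : (Ix J → ℝ) → Ix J → ℝ)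
    (hf : ∀ a, f α a = f (Pm α) a + f (Po α) a) (h1 : Nice g L (f (Pm α)))
    (h2 : Nice g L (f (Po α))) :
    tl c (f α) β γ = tl c (f (Pm α)) β γ + tl c (f (Po α)) β γ := by
  rw [← tl_add1 hK hs h1 h2 hβ hγ]
  exact tl_congr fun i a b _ => by rw [hf]

theorem pl_mo (p : ℕ) (z : Ix J → ℝ) (a : Ix J) : Pl g p z a = Pl g p (Pm z) a + Pl g p (Po z) a := by
  unfold Pl
  split_ifs
  · exact pm_po z a
  · ring
theorem pu_mo (p : ℕ) (z : Ix J → ℝ) (a : Ix J) : Pu g p z a = Pu g p (Pm z) a + Pu g p (Po z) a := by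
  unfold Pu
  split_ifs
  · exact pm_po z a
  · ring
theorem pg_mo (p : ℕ) (z : Ix J → ℝ) (a : Ix J) : Pg g p z a = Pg g p (Pm z) a + Pg g p (Po z) a := by
  unfold Pg
  split_ifs
  · exact pm_po z a
  · ring

theorem tl_c2 (hK : Ker g Λ M L C B c) (hs : Sq lam Λ M L C ℓ B) {α β β₁ β₂ γ : Ix J → ℝ}
    (hα : Nice g L α) (h1 : Nice g L β₁) (h2 : Nice g L β₂) (hγ : Nice g L γ)
    (h : ∀ a, β a = β₁ a + β₂ a) : tl c α β γ = tl c α β₁ γ + tl c α β₂ γ := by
  rw [← tl_add2 hK hs hα h1 h2 hγ]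
  exact tl_congr fun i a b _ => by rw [h]

theorem tl_c3 (hK : Ker g Λ M L C B c) (hs : Sq lam Λ M L C ℓ B) {α β γ γ₁ γ₂ : Ix J → ℝ}
    (hα : Nice g L α) (hβ : Nice g L β) (h1 : Nice g L γ₁) (h2 : Nice g L γ₂)
    (h : ∀ a, γ a = γ₁ a + γ₂ a) : tl c α β γ = tl c α β γ₁ + tl c α β γ₂ := by
  rw [← tl_add3 hK hs hα hβ h1 h2]
  exact tl_congr fun i a b _ => by rw [h]

theorem tl_c1 (hK : Ker g Λ M L C B c) (hs : Sq lam Λ M L C ℓ B) {α α₁ α₂ β γ : Ix J → ℝ}
    (h1 : Nice g L α₁) (h2 : Nice g L α₂) (hβ : Nice g L β) (hγ : Nice g L γ)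
    (h : ∀ a, α a = α₁ a + α₂ a) : tl c α β γ = tl c α₁ β γ + tl c α₂ β γ := by
  rw [← tl_add1 hK hs h1 h2 hβ hγ]
  exact tl_congr fun i a b _ => by rw [h]

/-! ### The quantities at a fixed time -/

noncomputable def sA (lam : ℝ) (b : ℕ → ℝ) (m : ℕ) : ℝ :=
  ∑ p ∈ Finset.range m, (√lam)⁻¹ ^ (m - 1 - p) * b p
noncomputable def sU (L b : ℕ → ℝ) (m : ℕ) : ℝ := ∑ p ∈ Finset.range m, L p * b p
/-- the term `loc` -/
noncomputable def lc (L : ℕ → ℝ) (g : J → ℕ) (z : Ix J → ℝ) (m : ℕ) : ℝ :=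
  if m = 0 then 0 else L (m - 1) * ((|z (Sum.inl (m - 1))| + ww g z (m - 1) +
    |z (Sum.inl (m - 2))| + ww g z (m - 2)) * (ww g z (m - 1) + ww g z (m - 2)))

theorem sA_nn {b : ℕ → ℝ} (hb : ∀ p, 0 ≤ b p) (m : ℕ) : 0 ≤ sA lam b m :=
  Finset.sum_nonneg fun p _ => mul_nonneg (pow_nonneg ρ_nn _) (hb p)
theorem sU_nn (hs : Sq lam Λ M L C ℓ B) {b : ℕ → ℝ} (hb : ∀ p, 0 ≤ b p) (m : ℕ) : 0 ≤ sU L b m :=
  Finset.sum_nonneg fun p _ => mul_nonneg (L_nn hs _) (hb p)
theorem sU_le (hs : Sq lam Λ M L C ℓ B) {b : ℕ → ℝ} (hb : ∀ p, 0 ≤ b p) (m : ℕ) :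
    sU L b m ≤ L m * sA lam b m := sumL hs m hb
theorem sA_mono {b b' : ℕ → ℝ} (hb : ∀ p, b p ≤ b' p) (m : ℕ) : sA lam b m ≤ sA lam b' m :=
  Finset.sum_le_sum fun p _ => mul_le_mul_of_nonneg_left (hb p) (pow_nonneg ρ_nn _)

theorem lc_nn (hs : Sq lam Λ M L C ℓ B) (z : Ix J → ℝ) (m : ℕ) : 0 ≤ lc L g z m := by
  unfold lc
  split_ifs
  · exact le_rfl
  · have h1 := L_nn hs (m - 1)
    have h2 := ww_nn (g := g) z (m - 1)
    have h3 := ww_nn (g := g) z (m - 2)
    positivity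

/-- separation, in terms of `lc` -/
theorem EAl (hK : Ker g Λ M L C B c) (hs : Sq lam Λ M L C ℓ B) {z α : Ix J → ℝ}
    (hz : Nice g L z) (hα : Nice g L α) {n : ℕ}
    (h1 : ∀ i, i ≠ Sum.inl n → α i = 0) :
    |tl c α (Pl g n z) (Pl g n (Po z))| ≤ M * (nm α * lc L g z n) ∧
    |tl c α (Pl g n (Po z)) (Pl g n (Pm z))| ≤ M * (nm α * lc L g z n) := by
  cases n with
  | zero =>
    have h0 : ∀ y : Ix J → ℝ, ∀ a, Pl g 0 y a = 0 := fun y a => if_neg (by omega)
    have e1 : tl c α (Pl g 0 z) (Pl g 0 (Po z)) = 0 := tl_zero fun i a b _ => by rw [h0]; ring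
    have e2 : tl c α (Pl g 0 (Po z)) (Pl g 0 (Pm z)) = 0 := tl_zero fun i a b _ => by rw [h0]; ring
    rw [e1, e2, abs_zero]
    have : lc L g z 0 = 0 := if_pos rfl
    rw [this]
    simp
  | succ n =>
    have e : lc L g z (n + 1) = L n * ((ee g z n + ee g z (n - 1)) * (ww g z n + ww g z (n - 1))) := by
      unfold lc ee
      rw [if_neg (by omega)]
      simp only [Nat.add_sub_cancel, show n + 1 - 2 = n - 1 by omega]
      ring
    have hzp := hz.po hs
    have hzm := hz.pm hs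
    rw [e]
    constructor
    · exact EA' hK hs hα (hz.pl hs _) (hzp.pl hs _) h1 (Pl_in _ _) (Pl_in _ _)
        (fun p => (pg_pl_le hs hz p _).trans (grp_le hs hz p))
        (fun p => (pg_pl_le hs hzp p _))
    · refine (EA' hK hs hα (hzp.pl hs _) (hzm.pl hs _) h1 (Pl_in _ _) (Pl_in _ _)
        (b := ww g z) (b' := fun p => |z (Sum.inl p)|)
        (fun p => (pg_pl_le hs hzp p _))
        (fun p => (pg_pl_le hs hzm p _).trans (le_of_eq (nm_pm z p)))).trans ?_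
      have h2 := M_nn hs
      have h3 := nm_nn α
      have h4 := L_nn hs n
      have h5 := ww_nn (g := g) z n
      have h6 := ww_nn (g := g) z (n - 1)
      have h7 : (ww g z n + ww g z (n - 1)) * (|z (Sum.inl n)| + |z (Sum.inl (n - 1))|) ≤
          (ee g z n + ee g z (n - 1)) * (ww g z n + ww g z (n - 1)) := by
        rw [mul_comm]
        refine mul_le_mul_of_nonneg_right ?_ (by positivity)
        unfold ee
        linarith
      gcongr

theorem single_nice (hs : Sq lam Λ M L C ℓ B) {α : Ix J → ℝ} {k : Ix J}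
    (h1 : ∀ i, i ≠ k → α i = 0) : Nice g L α := by
  have : Summable (fun a => L (gr g a) * |α a|) := by
    refine summable_of_ne_finset_zero (s := {k}) fun a ha => ?_
    rw [h1 a (by simpa using ha)]; simp
  exact this

/-- the perturbation of the main modes -/
theorem f_static (hK : Ker g Λ M L C B c) (hs : Sq lam Λ M L C ℓ B) {z α : Ix J → ℝ}
    (hz : Nice g L z) {n : ℕ} (h1 : ∀ i, i ≠ Sum.inl n → α i = 0) (hα1 : nm α = 1) :
    |tl c α z z - tl c α (Pm z) (Pm z)| ≤ 10 ^ 6 * M ^ 4 *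
      (L n * (sA lam (ee g z) n + nm (Pu g n z)) * nm (Pu g n (Po z))
      + sU L (ww g z) n * nm (Pu g n z) + L n * sA lam (ww g z) n * nm (Pu g (n + 1) z)
      + lc L g z n) := by
  have hα : Nice g L α := single_nice hs h1
  have hαG : InG g n α := fun i hi => h1 i (fun h => hi (by rw [h]; rfl))
  have hzp := hz.po hs
  have hzm := hz.pm hs
  have hM := M_nn hs
  have hL := L_nn hs n
  have e0 : tl c α z z - tl c α (Pm z) (Pm z) = tl c α z (Po z) + tl c α (Po z) (Pm z) := by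
    rw [tl_c3 hK hs hα hz hzm hzp (pm_po z), tl_c2 hK hs hα hzm hzp hzm (pm_po z)]
    ring
  rw [e0, tl_four hK hs hα hz hzp n, tl_four hK hs hα hzp hzm n]
  obtain ⟨a1, a2⟩ := EAl hK hs hz hα h1
  have b1 := EB hK hs hα hz hzp hαG (b := ee g z) (grp_le hs hz)
  have c1 := EC hK hs hα hz hzp hαG (b := ww g z) (fun p => le_rfl)
  have d1 := ED hK hs hα (hz.pu hs n) (hzp.pu hs n) hαG (Pu_in n _) (Pu_in n _)
  have c2 := EC hK hs hα hzp hzm hαG (b := fun p => |z (Sum.inl p)|) (fun p => le_of_eq (nm_pm z p))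
  have d2 := ED hK hs hα (hzp.pu hs n) (hzm.pu hs n) hαG (Pu_in n _) (Pu_in n _)
  have b2 : |tl c α (Pl g n (Po z)) (Pu g n (Pm z))| ≤
      M * (nm α * (L n * sA lam (ww g z) n) * nm (Pu g (n + 1) z)) := by
    rw [up_split hK hs hα (hzp.pl hs n) (hzm.pu hs n) hαG (Pl_in n _) (Pu_in n _)]
    have e1 : tl c α (Pl g n (Po z)) (Pg g n (Pu g n (Pm z))) = 0 := by
      refine tl_zero fun i a b hc => ?_
      by_cases hi : i = Sum.inl n
      · by_cases hb : b = Sum.inl n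
        · exfalso
          apply hc
          have := hK.anti i a b
          rw [hi, hb] at this ⊢
          linarith
        · have : Pg g n (Pu g n (Pm z)) b = 0 := by
            cases b with
            | inl k =>
              have : k ≠ n := fun h => hb (by rw [h])
              simp [Pg, gr, this]
            | inr j => simp [Pg, Pu, Pm]
          rw [this]; ring
      · rw [h1 i hi]; ring
    rw [e1, zero_add]
    refine (EB1 hK hs hα (hzp.pl hs n) ((hzm.pu hs n).pg hs (n + 1)) (show n ≤ n + 1 by omega)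
      hαG (Pl_in n _) (Pg_in _ _) (b := ww g z) (fun p => pg_pl_le hs hzp p n)).trans ?_
    have h2 : nm (Pg g (n + 1) (Pu g n (Pm z))) ≤ nm (Pu g (n + 1) z) := by
      refine nm_mono hs (hz.pu hs (n + 1)) fun a => ?_
      unfold Pg Pu
      by_cases ha : gr g a = n + 1
      · rw [if_pos ha, if_pos (by omega), if_pos (by omega)]
        exact Pm_le z a
      · rw [if_neg ha, abs_zero]; exact abs_nonneg _
    have h3 := nm_nn α
    have h4 := sA_nn (lam := lam) (fun p => ww_nn (g := g) z p) n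
    unfold sA at h4 ⊢
    gcongr
  rw [hα1] at *
  simp only [one_mul] at *
  have hA := sA_nn (lam := lam) (fun p => ee_nn (g := g) z p) n
  have hAw := sA_nn (lam := lam) (fun p => ww_nn (g := g) z p) n
  have hU := sU_nn hs (fun p => ww_nn (g := g) z p) n
  have hlc := lc_nn (g := g) hs z n
  have hY := nm_nn (Pu g n z)
  have hY1 := nm_nn (Pu g (n + 1) z)
  have hW := nm_nn (Pu g n (Po z))
  have hX := X_le_Y hs hz n
  have c2' : ∑ q ∈ Finset.range n, L q * |z (Sum.inl q)| ≤ L n * sA lam (ee g z) n := by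
    refine (sU_le hs (b := fun q => |z (Sum.inl q)|) (fun p => abs_nonneg _) n).trans ?_
    refine mul_le_mul_of_nonneg_left (sA_mono (fun p => ?_) n) hL
    unfold ee
    linarith [ww_nn (g := g) z p]
  change _ ≤ 2 * (M * (L n * sA lam (ee g z) n * nm (Pu g n (Po z)))) at b1
  change _ ≤ 2 * (M * (nm (Pu g n z) * sU L (ww g z) n)) at c1
  have c3 : 2 * (M * (nm (Pu g n (Po z)) * ∑ q ∈ Finset.range n, L q * |z (Sum.inl q)|)) ≤
      2 * (M * (nm (Pu g n (Po z)) * (L n * sA lam (ee g z) n))) := by gcongr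
  have d3 : 3 * (M * (L n * (nm (Pu g n (Po z)) * nm (Pu g n (Pm z))))) ≤
      3 * (M * (L n * (nm (Pu g n (Po z)) * nm (Pu g n z)))) := by gcongr
  have hsum : |tl c α (Pl g n z) (Pl g n (Po z)) + tl c α (Pl g n z) (Pu g n (Po z)) +
      tl c α (Pu g n z) (Pl g n (Po z)) + tl c α (Pu g n z) (Pu g n (Po z)) +
      (tl c α (Pl g n (Po z)) (Pl g n (Pm z)) + tl c α (Pl g n (Po z)) (Pu g n (Pm z)) +
      tl c α (Pu g n (Po z)) (Pl g n (Pm z)) + tl c α (Pu g n (Po z)) (Pu g n (Pm z)))| ≤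
      6 * (M * (L n * (sA lam (ee g z) n + nm (Pu g n z)) * nm (Pu g n (Po z))
      + sU L (ww g z) n * nm (Pu g n z) + L n * sA lam (ww g z) n * nm (Pu g (n + 1) z)
      + lc L g z n)) := by
    have p1 : 0 ≤ M * (L n * sA lam (ee g z) n * nm (Pu g n (Po z))) := by positivity
    have p2 : 0 ≤ M * (sU L (ww g z) n * nm (Pu g n z)) := by positivity
    have p3 : 0 ≤ M * (L n * sA lam (ww g z) n * nm (Pu g (n + 1) z)) := by positivity
    have p4 : 0 ≤ M * lc L g z n := by positivity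
    have q : 6 * (M * (L n * (sA lam (ee g z) n + nm (Pu g n z)) * nm (Pu g n (Po z))
      + sU L (ww g z) n * nm (Pu g n z) + L n * sA lam (ww g z) n * nm (Pu g (n + 1) z)
      + lc L g z n)) = 6 * (M * (L n * sA lam (ee g z) n * nm (Pu g n (Po z)))) +
        6 * (M * (L n * (nm (Pu g n (Po z)) * nm (Pu g n z)))) +
        6 * (M * (sU L (ww g z) n * nm (Pu g n z))) +
        6 * (M * (L n * sA lam (ww g z) n * nm (Pu g (n + 1) z))) + 6 * (M * lc L g z n) := by ring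
    rw [q]
    have r1 : M * (nm (Pu g n z) * sU L (ww g z) n) = M * (sU L (ww g z) n * nm (Pu g n z)) := by ring
    have r2 : M * (nm (Pu g n (Po z)) * (L n * sA lam (ee g z) n)) =
      M * (L n * sA lam (ee g z) n * nm (Pu g n (Po z))) := by ring
    have r3 : M * (L n * (nm (Pu g n z) * nm (Pu g n (Po z)))) =
      M * (L n * (nm (Pu g n (Po z)) * nm (Pu g n z))) := by ring
    rw [r1] at c1
    rw [r2] at c3
    rw [r3] at d1
    have := abs_le.1 a1
    have := abs_le.1 a2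
    have := abs_le.1 b1
    have := abs_le.1 b2
    have := abs_le.1 c1
    have := abs_le.1 (c2.trans c3)
    have := abs_le.1 d1
    have := abs_le.1 (d2.trans d3)
    rw [abs_le]
    constructor <;> linarith
  refine hsum.trans ?_
  set Q := L n * (sA lam (ee g z) n + nm (Pu g n z)) * nm (Pu g n (Po z))
      + sU L (ww g z) n * nm (Pu g n z) + L n * sA lam (ww g z) n * nm (Pu g (n + 1) z)
      + lc L g z n with hQ
  have hQ0 : 0 ≤ Q := by positivity
  have hM1 : M ≤ M ^ 4 := le_self_pow₀ hs.M_one (by norm_num)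
  calc 6 * (M * Q) ≤ 10 ^ 6 * (M ^ 4 * Q) := by gcongr; norm_num
    _ = _ := by ring

/-- the other modes -/
theorem w_static (hK : Ker g Λ M L C B c) (hs : Sq lam Λ M L C ℓ B) {z : Ix J → ℝ}
    (hz : Nice g L z) (n : ℕ) :
    |tl c (Pg g n (Po z)) z z| ≤ ww g z n * (10 ^ 6 * M ^ 4 *
      (L n * (sA lam (ee g z) n + nm (Pu g n z)) * nm (Pu g n z)
      + (if n = 0 then 0 else L (n - 1) * sA lam (ee g z) n * ee g z (n - 1)))) := by
  set α := Pg g n (Po z) with hαd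
  have hzp := hz.po hs
  have hα : Nice g L α := hzp.pg hs n
  have hαG : InG g n α := Pg_in n _
  have hM := M_nn hs
  have hL := L_nn hs n
  have hα1 : nm α = ww g z n := rfl
  have hw := ww_nn (g := g) z n
  rw [tl_four hK hs hα hz hz n]
  have b1 := EB hK hs hα hz hz hαG (b := ee g z) (grp_le hs hz)
  have c1 := EC hK hs hα hz hz hαG (b := ee g z) (grp_le hs hz)
  have d1 := ED hK hs hα (hz.pu hs n) (hz.pu hs n) hαG (Pu_in n _) (Pu_in n _)
  have hA := sA_nn (lam := lam) (fun p => ee_nn (g := g) z p) n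
  have hY := nm_nn (Pu g n z)
  have c2 := sU_le hs (b := ee g z) (fun p => ee_nn (g := g) z p) n
  have c3 : 2 * (M * (nm α * nm (Pu g n z) * sU L (ee g z) n)) ≤
      2 * (M * (nm α * nm (Pu g n z) * (L n * sA lam (ee g z) n))) := by
    rw [hα1]; gcongr
  have a1 : |tl c α (Pl g n z) (Pl g n z)| ≤ 2 * (M * (ww g z n *
      (if n = 0 then 0 else L (n - 1) * sA lam (ee g z) n * ee g z (n - 1)))) := by
    cases n with
    | zero =>
      have h0 : ∀ y : Ix J → ℝ, ∀ a, Pl g 0 y a = 0 := fun y a => if_neg (by omega)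
      have e1 : tl c α (Pl g 0 z) (Pl g 0 z) = 0 := tl_zero fun i a b _ => by rw [h0]; ring
      rw [e1, abs_zero, if_pos rfl]
      simp
    | succ n =>
      rw [if_neg (by omega)]
      have := EA hK hs hα (hz.pl hs _) (hz.pl hs _) hαG (Pl_in _ _) (Pl_in _ _) (b := ee g z)
        (fun p => (pg_pl_le hs hz p _).trans (grp_le hs hz p))
        (fun p => (pg_pl_le hs hz p _).trans (grp_le hs hz p))
      exact this
  set Z := (if n = 0 then 0 else L (n - 1) * sA lam (ee g z) n * ee g z (n - 1)) with hZ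
  have hZ0 : 0 ≤ Z := by
    rw [hZ]
    split_ifs
    · exact le_rfl
    · exact mul_nonneg (mul_nonneg (L_nn hs _) hA) (ee_nn _ _)
  change _ ≤ 2 * (M * (nm α * (L n * sA lam (ee g z) n) * nm (Pu g n z))) at b1
  change _ ≤ 2 * (M * (nm α * nm (Pu g n z) * sU L (ee g z) n)) at c1
  have hsum : |tl c α (Pl g n z) (Pl g n z) + tl c α (Pl g n z) (Pu g n z) +
      tl c α (Pu g n z) (Pl g n z) + tl c α (Pu g n z) (Pu g n z)| ≤
      4 * (M * (ww g z n * (L n * (sA lam (ee g z) n + nm (Pu g n z)) * nm (Pu g n z) + Z))) := by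
    have h1 := c1.trans c3
    rw [hα1] at b1 d1 h1
    have q : 4 * (M * (ww g z n * (L n * (sA lam (ee g z) n + nm (Pu g n z)) * nm (Pu g n z) + Z))) =
      4 * (M * (ww g z n * (L n * sA lam (ee g z) n) * nm (Pu g n z))) +
      4 * (M * (ww g z n * (L n * (nm (Pu g n z) * nm (Pu g n z))))) +
      4 * (M * (ww g z n * Z)) := by ring
    rw [q]
    have r : M * (ww g z n * nm (Pu g n z) * (L n * sA lam (ee g z) n)) =
      M * (ww g z n * (L n * sA lam (ee g z) n) * nm (Pu g n z)) := by ring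
    rw [r] at h1
    have p1 : 0 ≤ M * (ww g z n * (L n * (nm (Pu g n z) * nm (Pu g n z)))) := by positivity
    have p2 : 0 ≤ M * (ww g z n * Z) := by positivity
    have := abs_le.1 a1
    have := abs_le.1 b1
    have := abs_le.1 h1
    have := abs_le.1 d1
    rw [abs_le]
    constructor <;> linarith
  refine hsum.trans ?_
  set Q := L n * (sA lam (ee g z) n + nm (Pu g n z)) * nm (Pu g n z) + Z with hQ
  have hQ0 : 0 ≤ Q := by positivity
  have hM1 : M ≤ M ^ 4 := le_self_pow₀ hs.M_one (by norm_num)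
  calc 4 * (M * (ww g z n * Q)) ≤ 10 ^ 6 * (M ^ 4 * (ww g z n * Q)) := by gcongr; norm_num
    _ = _ := by ring

end Pool.Agent.Y704.NE
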